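import Mathlib
import Pool.Agent.W770.KP.Stm

set_option autoImplicit false

open scoped Classical

namespace Pool.Agent.W903.KP
open Pool.Agent.W770.KP

noncomputable section

variable {F E E' : Type} [Field F] [Fintype F] [AddCommGroup E] [Module F E] [Fintype E]
  [AddCommGroup E'] [Module F E'] [Fintype E']

/-- sum over the fibres -/
def hh (π : E →ₗ[F] E') (f : E → ℝ) (y : E') : ℝ := ∑ x : E, if π x = y then f x else 0

omit [Fintype F] [Fintype E'] in
theorem hh_nonneg (π : E →ₗ[F] E') (f : E → ℝ) (hf : ∀ x, 0 ≤ f x) (y : E') : 0 ≤ hh π f y := by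
  apply Finset.sum_nonneg
  intro x _
  split_ifs
  · exact hf x
  · exact le_refl _

omit [Fintype F] in
theorem ps_eq (π : E →ₗ[F] E') (f : E → ℝ) (a : E) (W : Submodule F E') :
    PS f a (W.comap π) = PS (hh π f) (π a) W := by
  unfold PS hh
  have h1 : ∀ y : E', (if y - π a ∈ W then ∑ x : E, (if π x = y then f x else 0) else 0) =
      ∑ x : E, (if π x = y then (if y - π a ∈ W then f x else 0) else 0) := by
    intro y
    split_ifs with h
    · rfl
    · simp
  rw [Finset.sum_congr rfl (fun y _ => h1 y), Finset.sum_comm]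
  apply Finset.sum_congr rfl
  intro x _
  rw [Finset.sum_ite_eq]
  simp only [Finset.mem_univ, if_true, Submodule.mem_comap, map_sub]

omit [Fintype E'] in
theorem fib_filter (π : E →ₗ[F] E') (v : E) (hk : LinearMap.ker π = Submodule.span F {v})
    (hv : v ≠ 0) (x : E) :
    (Finset.univ.filter fun z => π z = π x) =
      Finset.univ.map ⟨fun t : F => x + t • v, fun s t hst =>
        smul_left_injective F hv (add_left_cancel hst)⟩ := by
  ext z
  simp only [Finset.mem_filter, Finset.mem_univ, true_and, Finset.mem_map,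
    Function.Embedding.coeFn_mk]
  constructor
  · intro h
    have h1 : z - x ∈ LinearMap.ker π := by
      rw [LinearMap.mem_ker, map_sub, h, sub_self]
    rw [hk, Submodule.mem_span_singleton] at h1
    obtain ⟨t, ht⟩ := h1
    exact ⟨t, by rw [ht]; abel⟩
  · rintro ⟨t, rfl⟩
    have h1 : t • v ∈ LinearMap.ker π := by
      rw [hk]; exact Submodule.smul_mem _ _ (Submodule.mem_span_singleton_self v)
    rw [map_add, LinearMap.mem_ker.1 h1, add_zero]

omit [Fintype E'] in
theorem hh_mk (π : E →ₗ[F] E') (v : E) (hk : LinearMap.ker π = Submodule.span F {v})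
    (hv : v ≠ 0) (f : E → ℝ) (x : E) : hh π f (π x) = ∑ t : F, f (x + t • v) := by
  unfold hh
  rw [← Finset.sum_filter, fib_filter π v hk hv x, Finset.sum_map]
  rfl

theorem sum_mk (π : E →ₗ[F] E') (v : E) (hk : LinearMap.ker π = Submodule.span F {v})
    (hv : v ≠ 0) (hs : Function.Surjective π) (g : E' → ℝ) :
    ∑ x : E, g (π x) = (Fintype.card F : ℝ) * ∑ y : E', g y := by
  rw [← Finset.sum_fiberwise (s := (Finset.univ : Finset E)) (g := fun x => π x)
    (f := fun x => g (π x)), Finset.mul_sum]
  apply Finset.sum_congr rfl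
  intro y _
  obtain ⟨x0, rfl⟩ := hs y
  have h1 : ∀ x ∈ (Finset.univ : Finset E).filter (fun x => π x = π x0), g (π x) = g (π x0) := by
    intro x hx
    rw [(Finset.mem_filter.1 hx).2]
  rw [Finset.sum_congr rfl h1, Finset.sum_const, fib_filter π v hk hv x0, Finset.card_map,
    Finset.card_univ, nsmul_eq_mul]

omit [Fintype F] in
theorem fr_eq (π : E →ₗ[F] E') (v : E) (hk : LinearMap.ker π = Submodule.span F {v})
    (hv : v ≠ 0) (hs : Function.Surjective π) (W : Submodule F E') :
    Module.finrank F (W.comap π) = Module.finrank F W + 1 := by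
  have h1 := LinearMap.finrank_range_add_finrank_ker (π.domRestrict (W.comap π))
  have h2 : LinearMap.range (π.domRestrict (W.comap π)) = W := by
    rw [LinearMap.range_domRestrict, Submodule.map_comap_eq_of_surjective hs]
  have h3 : Module.finrank F (LinearMap.ker (π.domRestrict (W.comap π))) = 1 := by
    rw [LinearMap.ker_domRestrict]
    have hle : LinearMap.ker π ≤ W.comap π := by
      intro x hx
      rw [Submodule.mem_comap, LinearMap.mem_ker.1 hx]; exact W.zero_mem
    have e := Submodule.comapSubtypeEquivOfLe hle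
    rw [LinearEquiv.finrank_eq e, hk, finrank_span_singleton hv]
  rw [h2, h3] at h1
  exact h1.symm

omit [Fintype F] in
theorem gr_image (π : E →ₗ[F] E') (v : E) (hk : LinearMap.ker π = Submodule.span F {v})
    (hv : v ≠ 0) (hs : Function.Surjective π) (k : ℕ) :
    (Gr F E (k + 1)).filter (fun W => v ∈ W) =
      (Gr F E' k).map ⟨fun W => W.comap π, Submodule.comap_injective_of_surjective hs⟩ := by
  ext W
  simp only [Finset.mem_filter, Gr, Finset.mem_univ, true_and, Finset.mem_map,
    Function.Embedding.coeFn_mk]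
  constructor
  · rintro ⟨h1, h2⟩
    have hle : LinearMap.ker π ≤ W := by
      rw [hk, Submodule.span_singleton_le_iff_mem]; exact h2
    have h3 : (W.map π).comap π = W := by
      rw [Submodule.comap_map_eq, sup_eq_left]; exact hle
    refine ⟨W.map π, ?_, h3⟩
    have h4 := fr_eq π v hk hv hs (W.map π)
    rw [h3, h1] at h4
    omega
  · rintro ⟨W', h1, rfl⟩
    refine ⟨by rw [fr_eq π v hk hv hs W', h1], ?_⟩
    have h5 : v ∈ LinearMap.ker π := by rw [hk]; exact Submodule.mem_span_singleton_self v
    rw [Submodule.mem_comap, LinearMap.mem_ker.1 h5]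
    exact W'.zero_mem

theorem t_ST1 : S_ST1 := by
  intro n k hk1 hkn hSA
  obtain ⟨C, hC, hSA⟩ := hSA
  refine ⟨C, hC, ?_⟩
  intro F E _ _ _ _ _ hn f hf a v hv
  letI : Fintype (E ⧸ Submodule.span F {v}) := Fintype.ofFinite _
  set π := (Submodule.span F {v}).mkQ with hπ
  have hk : LinearMap.ker π = Submodule.span F {v} := Submodule.ker_mkQ _
  have hs : Function.Surjective π := Submodule.mkQ_surjective _
  have hn' : Module.finrank F (E ⧸ Submodule.span F {v}) = n := by
    have h1 := Submodule.finrank_quotient_add_finrank (Submodule.span F {v})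
    rw [finrank_span_singleton hv, hn] at h1
    omega
  have h1 := hSA F (E ⧸ Submodule.span F {v}) hn' (hh π f) (hh_nonneg π f hf)
    (fun W => π (a (W.comap π)))
  have h2 : ∑ W ∈ (Gr F E (k+1)).filter (fun W => v ∈ W), (PS f (a W) W) ^ n =
      ∑ W ∈ Gr F (E ⧸ Submodule.span F {v}) k, (PS (hh π f) (π (a (W.comap π))) W) ^ n := by
    rw [gr_image π v hk hv hs k, Finset.sum_map]
    apply Finset.sum_congr rfl
    intro W _
    simp only [Function.Embedding.coeFn_mk]
    rw [ps_eq]
  have h3 : ((Gr F E (k+1)).filter (fun W => v ∈ W)).card =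
      (Gr F (E ⧸ Submodule.span F {v}) k).card := by
    rw [gr_image π v hk hv hs k, Finset.card_map]
  have h4 : (∑ x : E, (∑ t : F, f (x + t • v)) ^ ((n : ℝ) / (k : ℝ))) / (Fintype.card F : ℝ) =
      ∑ y : E ⧸ Submodule.span F {v}, (hh π f y) ^ ((n : ℝ) / (k : ℝ)) := by
    have h5 := sum_mk π v hk hv hs (fun y => (hh π f y) ^ ((n : ℝ) / (k : ℝ)))
    have h6 : ∑ x : E, (∑ t : F, f (x + t • v)) ^ ((n : ℝ) / (k : ℝ)) =
        ∑ x : E, (hh π f (π x)) ^ ((n : ℝ) / (k : ℝ)) := by
      apply Finset.sum_congr rfl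
      intro x _
      rw [hh_mk π v hk hv]
    have hq : (Fintype.card F : ℝ) ≠ 0 := by
      exact_mod_cast Fintype.card_ne_zero
    rw [h6, h5, mul_div_cancel_left₀ _ hq]
  rw [h2, h3, h4]
  exact h1

end

end Pool.Agent.W903.KP
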